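import Mathlib

/-!
# Reptiles in the plane: the zero set of the Fourier transform
-/

namespace RepTile

open MeasureTheory Complex Filter Topology
open scoped Pointwise

abbrev E2 := EuclideanSpace ℝ (Fin 2)

/-- Fourier transform of the indicator function of `S` -/
noncomputable def FT (S : Set E2) (ξ : E2) : ℂ := ∫ x in S, cexp (I * (inner ℝ x ξ : ℝ))

theorem continuous_kernel (ξ : E2) : Continuous fun x : E2 => cexp (I * (inner ℝ x ξ : ℝ)) := by
  fun_prop

theorem norm_kernel (x ξ : E2) : ‖cexp (I * (inner ℝ x ξ : ℝ))‖ = 1 := by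
  rw [mul_comm]
  exact Complex.norm_exp_ofReal_mul_I _

theorem integrable_kernel {S : Set E2} (hS : volume S ≠ ⊤) (ξ : E2) :
    IntegrableOn (fun x : E2 => cexp (I * (inner ℝ x ξ : ℝ))) S := by
  have : IsFiniteMeasure (volume.restrict S) := ⟨by
    rw [Measure.restrict_apply_univ]; exact lt_top_iff_ne_top.mpr hS⟩
  refine Integrable.of_bound (C := 1) (continuous_kernel ξ).aestronglyMeasurable ?_
  exact Eventually.of_forall fun x => (norm_kernel x ξ).le

theorem FT_add (S : Set E2) (c ξ : E2) :
    FT ((fun x => x + c) '' S) ξ = cexp (I * (inner ℝ c ξ : ℝ)) * FT S ξ := by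
  unfold FT
  rw [(measurePreserving_add_right volume c).setIntegral_image_emb
    (measurableEmbedding_addRight c), ← integral_const_mul]
  refine integral_congr_ae (Eventually.of_forall fun x => ?_)
  show cexp (I * (inner ℝ (x + c) ξ : ℝ)) =
    cexp (I * (inner ℝ c ξ : ℝ)) * cexp (I * (inner ℝ x ξ : ℝ))
  rw [inner_add_left, ← Complex.exp_add]
  congr 1
  push_cast
  ring

theorem FT_lin (S : Set E2) (L : E2 ≃ₗᵢ[ℝ] E2) (ξ : E2) : FT (L '' S) ξ = FT S (L.symm ξ) := by
  unfold FT
  rw [L.measurePreserving.setIntegral_image_emb L.toHomeomorph.measurableEmbedding]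
  refine integral_congr_ae (Eventually.of_forall fun x => ?_)
  show cexp (I * (inner ℝ (L x) ξ : ℝ)) = cexp (I * (inner ℝ x (L.symm ξ) : ℝ))
  rw [← L.inner_map_map x (L.symm ξ), L.apply_symm_apply]

theorem FT_neg (S : Set E2) (ξ : E2) :
    FT ((fun x => -x) '' S) ξ = (starRingEnd ℂ) (FT S ξ) := by
  have h : (fun x : E2 => -x) = (LinearIsometryEquiv.neg ℝ : E2 ≃ₗᵢ[ℝ] E2) := by
    funext x; rfl
  rw [h, FT_lin]
  unfold FT
  rw [← integral_conj]
  refine integral_congr_ae (Eventually.of_forall fun x => ?_)
  show cexp (I * (inner ℝ x ((LinearIsometryEquiv.neg ℝ : E2 ≃ₗᵢ[ℝ] E2).symm ξ) : ℝ)) =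
    (starRingEnd ℂ) (cexp (I * (inner ℝ x ξ : ℝ)))
  rw [← Complex.exp_conj]
  have : (LinearIsometryEquiv.neg ℝ : E2 ≃ₗᵢ[ℝ] E2).symm ξ = -ξ := rfl
  rw [this, inner_neg_right]
  congr 1
  simp

theorem FT_smul (S : Set E2) {r : ℝ} (hr : 0 < r) (ξ : E2) :
    FT ((fun x => r • x) '' S) ξ = (r : ℂ) ^ 2 * FT S (r • ξ) := by
  have h := Measure.setIntegral_comp_smul_of_pos (volume : Measure E2)
    (fun x : E2 => cexp (I * (inner ℝ x ξ : ℝ))) S hr
  have hd : Module.finrank ℝ E2 = 2 := finrank_euclideanSpace_fin
  rw [hd] at h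
  have h2 : FT S (r • ξ) = ∫ x in S, cexp (I * (inner ℝ (r • x) ξ : ℝ)) := by
    unfold FT
    refine integral_congr_ae (Eventually.of_forall fun x => ?_)
    show cexp (I * (inner ℝ x (r • ξ) : ℝ)) = cexp (I * (inner ℝ (r • x) ξ : ℝ))
    rw [inner_smul_right, inner_smul_left]
    simp
  rw [h2, h]
  have h3 : (fun x : E2 => r • x) '' S = r • S := rfl
  rw [h3]
  show FT (r • S) ξ = (r : ℂ) ^ 2 * ((r ^ 2)⁻¹ • FT (r • S) ξ)
  rw [Complex.real_smul, ← mul_assoc]
  have hr' : (r : ℂ) ≠ 0 := by exact_mod_cast hr.ne'
  push_cast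
  rw [mul_inv_cancel₀ (pow_ne_zero 2 hr'), one_mul]

/-- similarity of the plane, as a map -/
noncomputable def sim (r : ℝ) (g : E2 ≃ᵢ E2) (x : E2) : E2 := r • g x

theorem FT_sim (S : Set E2) {r : ℝ} (hr : 0 < r) (g : E2 ≃ᵢ E2) (ξ : E2) :
    FT ((sim r g) '' S) ξ = (r : ℂ) ^ 2 * cexp (I * (inner ℝ (g 0) (r • ξ) : ℝ)) *
      FT S (g.toRealAffineIsometryEquiv.linearIsometryEquiv.symm (r • ξ)) := by
  set L := g.toRealAffineIsometryEquiv.linearIsometryEquiv with hL
  have hg : ∀ x, g x = L x + g 0 := by
    intro x
    have := g.toRealAffineIsometryEquiv.map_vadd 0 x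
    have e : g (x +ᵥ (0 : E2)) = L x + g 0 := this
    rw [vadd_eq_add, add_zero] at e
    exact e
  have h1 : (sim r g) '' S = (fun x => r • x) '' ((fun x => x + g 0) '' (L '' S)) := by
    rw [Set.image_image, Set.image_image]
    refine Set.image_congr fun x _ => ?_
    show r • g x = r • (L x + g 0)
    rw [hg]
  rw [h1, FT_smul _ hr, FT_add, FT_lin]
  ring

theorem volume_isometry (g : E2 ≃ᵢ E2) (S : Set E2) : volume (g '' S) = volume S := by
  set L := g.toRealAffineIsometryEquiv.linearIsometryEquiv with hL
  have hg : ∀ x, g x = L x + g 0 := by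
    intro x
    have := g.toRealAffineIsometryEquiv.map_vadd 0 x
    have e : g (x +ᵥ (0 : E2)) = L x + g 0 := this
    rw [vadd_eq_add, add_zero] at e
    exact e
  have h1 : g '' S = (fun x => x + g 0) '' (L '' S) := by
    rw [Set.image_image]
    exact Set.image_congr fun x _ => hg x
  rw [h1]
  have e1 : ∀ A : Set E2, volume ((fun x => x + g 0) '' A) = volume A := by
    intro A
    have h := (measurePreserving_add_right (volume : Measure E2) (g 0)).measure_preimage_emb
      (measurableEmbedding_addRight (g 0)) ((fun x => x + g 0) '' A)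
    rw [Set.preimage_image_eq _ (add_left_injective (g 0))] at h
    exact h.symm
  have e2 : volume (L '' S) = volume S := by
    have h := L.measurePreserving.measure_preimage_emb L.toHomeomorph.measurableEmbedding (L '' S)
    rw [Set.preimage_image_eq _ L.injective] at h
    exact h.symm
  rw [e1, e2]

theorem volume_sim (S : Set E2) {r : ℝ} (hr : 0 < r) (g : E2 ≃ᵢ E2) :
    volume (sim r g '' S) = ENNReal.ofReal (r ^ 2) * volume S := by
  have h1 : sim r g '' S = r • (g '' S) := by
    rw [← Set.image_smul, Set.image_image]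
    rfl
  rw [h1, Measure.addHaar_smul, volume_isometry]
  have hd : Module.finrank ℝ E2 = 2 := finrank_euclideanSpace_fin
  rw [hd, abs_of_nonneg (by positivity)]

theorem continuous_FT {S : Set E2} (hS : volume S ≠ ⊤) : Continuous (FT S) := by
  have : IsFiniteMeasure (volume.restrict S) := ⟨by
    rw [Measure.restrict_apply_univ]; exact lt_top_iff_ne_top.mpr hS⟩
  refine continuous_of_dominated (bound := fun _ => 1) (fun ξ => ?_) (fun ξ => ?_) ?_ ?_
  · exact (continuous_kernel ξ).aestronglyMeasurable
  · exact Eventually.of_forall fun x => (norm_kernel x ξ).le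
  · exact integrable_const 1
  · refine Eventually.of_forall fun x => ?_
    fun_prop

theorem FT_zero (S : Set E2) : FT S 0 = (volume.real S : ℂ) := by
  unfold FT
  simp [Measure.real]

/-- additivity over an essentially disjoint union -/
theorem FT_sum {ι : Type*} [Fintype ι] {T : Set E2} {P : ι → Set E2}
    (hT : volume T ≠ ⊤) (hTm : MeasurableSet T) (hPm : ∀ i, MeasurableSet (P i))
    (hU : T = ⋃ i, P i) (hV : ∑ i, volume (P i) = volume T) (ξ : E2) :
    FT T ξ = ∑ i, FT (P i) ξ := by
  classical
  have hPT : ∀ i, P i ⊆ T := fun i => by rw [hU]; exact Set.subset_iUnion P i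
  -- the counting function equals the indicator almost everywhere
  have h1 : (T.indicator (fun _ => (1 : ENNReal))) =ᵐ[volume]
      (fun x => ∑ i, (P i).indicator (fun _ => (1 : ENNReal)) x) := by
    refine ae_eq_of_ae_le_of_lintegral_le ?_ ?_ ?_ ?_
    · refine Eventually.of_forall fun x => ?_
      by_cases hx : x ∈ T
      · have hx' := hx
        rw [hU, Set.mem_iUnion] at hx'
        obtain ⟨i, hi⟩ := hx'
        show T.indicator (fun _ => (1 : ENNReal)) x ≤ ∑ i, (P i).indicator (fun _ => (1 : ENNReal)) x
        rw [Set.indicator_of_mem hx]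
        calc (1 : ENNReal) = (P i).indicator (fun _ => (1 : ENNReal)) x := by
              rw [Set.indicator_of_mem hi]
          _ ≤ ∑ i, (P i).indicator (fun _ => (1 : ENNReal)) x :=
              Finset.single_le_sum (f := fun i => (P i).indicator (fun _ => (1 : ENNReal)) x)
                (fun _ _ => zero_le) (Finset.mem_univ i)
      · show T.indicator (fun _ => (1 : ENNReal)) x ≤ _
        rw [Set.indicator_of_notMem hx]
        exact zero_le
    · rw [lintegral_indicator hTm]
      simpa using hT
    · refine Finset.aemeasurable_fun_sum _ fun i _ => ?_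
      exact (measurable_const.indicator (hPm i)).aemeasurable
    · rw [lintegral_finsetSum _ fun i _ => measurable_const.indicator (hPm i)]
      rw [lintegral_indicator hTm]
      have : ∀ i, ∫⁻ x, (P i).indicator (fun _ => (1 : ENNReal)) x = volume (P i) := by
        intro i
        rw [lintegral_indicator (hPm i)]
        simp
      simp only [this, hV]
      simp
  have h2 : ∀ᵐ x : E2, T.indicator (fun x => cexp (I * (inner ℝ x ξ : ℝ))) x =
      ∑ i, (P i).indicator (fun x => cexp (I * (inner ℝ x ξ : ℝ))) x := by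
    filter_upwards [h1] with x hx
    by_cases hxT : x ∈ T
    · rw [Set.indicator_of_mem hxT] at hx ⊢
      -- exactly one piece
      have hcard : (Finset.univ.filter fun i => x ∈ P i).card = 1 := by
        have h3 : ∑ i, (P i).indicator (fun _ => (1 : ENNReal)) x =
            ((Finset.univ.filter fun i => x ∈ P i).card : ENNReal) := by
          rw [Finset.card_filter]
          push_cast
          exact Finset.sum_congr rfl fun i _ => by
            by_cases h : x ∈ P i <;> simp [h]
        rw [h3] at hx
        exact_mod_cast hx.symm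
      obtain ⟨i, hi⟩ := Finset.card_eq_one.mp hcard
      have hiP : x ∈ P i := by
        have : i ∈ Finset.univ.filter fun i => x ∈ P i := by rw [hi]; exact Finset.mem_singleton_self i
        exact (Finset.mem_filter.mp this).2
      rw [Finset.sum_eq_single i]
      · rw [Set.indicator_of_mem hiP]
      · intro j _ hj
        rw [Set.indicator_of_notMem]
        intro hjP
        have : j ∈ Finset.univ.filter fun i => x ∈ P i :=
          Finset.mem_filter.mpr ⟨Finset.mem_univ j, hjP⟩
        rw [hi, Finset.mem_singleton] at this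
        exact hj this
      · intro h; exact absurd (Finset.mem_univ i) h
    · rw [Set.indicator_of_notMem hxT]
      refine (Finset.sum_eq_zero fun i _ => ?_).symm
      exact Set.indicator_of_notMem (fun h => hxT (hPT i h)) _
  unfold FT
  rw [← integral_indicator hTm, integral_congr_ae h2, integral_finsetSum]
  · exact Finset.sum_congr rfl fun i _ => integral_indicator (hPm i)
  · intro i _
    rw [integrable_indicator_iff (hPm i)]
    exact integrable_kernel (ne_top_of_le_ne_top hT (measure_mono (hPT i))) ξ

end RepTile
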