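import Pool.Agent.RepTile.Main

/-!
# Rectangles
-/

namespace RepTile

open MeasureTheory Filter Topology

/-- the rectangle `[0,a] × [0,b]` -/
def box (a b : ℝ) : Set E2 := {x | (0 ≤ x 0 ∧ x 0 ≤ a) ∧ (0 ≤ x 1 ∧ x 1 ≤ b)}

/-- vector with given coordinates -/
noncomputable def vec (a b : ℝ) : E2 := WithLp.toLp 2 ![a, b]

theorem vec_zero (a b : ℝ) : vec a b 0 = a := rfl
theorem vec_one (a b : ℝ) : vec a b 1 = b := rfl

theorem mem_translate {S : Set E2} {v x : E2} : x ∈ (fun y => y + v) '' S ↔ x - v ∈ S := by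
  constructor
  · rintro ⟨y, hy, rfl⟩
    simpa using hy
  · intro h
    exact ⟨x - v, h, by simp⟩

theorem isClosed_box (a b : ℝ) : IsClosed (box a b) := by
  have h0 : Continuous fun x : E2 => x 0 := by fun_prop
  have h1 : Continuous fun x : E2 => x 1 := by fun_prop
  exact ((isClosed_le continuous_const h0).inter (isClosed_le h0 continuous_const)).inter
    ((isClosed_le continuous_const h1).inter (isClosed_le h1 continuous_const))

theorem open_box_subset (a b : ℝ) :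
    {x : E2 | (0 < x 0 ∧ x 0 < a) ∧ (0 < x 1 ∧ x 1 < b)} ⊆ interior (box a b) := by
  have h0 : Continuous fun x : E2 => x 0 := by fun_prop
  have h1 : Continuous fun x : E2 => x 1 := by fun_prop
  refine interior_maximal ?_ ?_
  · rintro x ⟨⟨a1, a2⟩, a3, a4⟩
    exact ⟨⟨a1.le, a2.le⟩, a3.le, a4.le⟩
  · exact ((isOpen_lt continuous_const h0).inter (isOpen_lt h0 continuous_const)).inter
      ((isOpen_lt continuous_const h1).inter (isOpen_lt h1 continuous_const))

theorem convex_box (a b : ℝ) : Convex ℝ (box a b) := by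
  intro x hx y hy s t hs ht hst
  obtain ⟨⟨a1, a2⟩, a3, a4⟩ := hx
  obtain ⟨⟨b1, b2⟩, b3, b4⟩ := hy
  have e0 : (s • x + t • y : E2) 0 = s * x 0 + t * y 0 := rfl
  have e1 : (s • x + t • y : E2) 1 = s * x 1 + t * y 1 := rfl
  refine ⟨⟨?_, ?_⟩, ?_, ?_⟩
  · rw [e0]; positivity
  · rw [e0]
    calc s * x 0 + t * y 0 ≤ s * a + t * a :=
          add_le_add (mul_le_mul_of_nonneg_left a2 hs) (mul_le_mul_of_nonneg_left b2 ht)
      _ = a := by rw [← add_mul, hst, one_mul]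
  · rw [e1]; positivity
  · rw [e1]
    calc s * x 1 + t * y 1 ≤ s * b + t * b :=
          add_le_add (mul_le_mul_of_nonneg_left a4 hs) (mul_le_mul_of_nonneg_left b4 ht)
      _ = b := by rw [← add_mul, hst, one_mul]

theorem isTile_box {a b : ℝ} (ha : 0 < a) (hb : 0 < b) : IsTile (box a b) := by
  have hne : (interior (box a b)).Nonempty := by
    refine ⟨vec (a / 2) (b / 2), open_box_subset a b ⟨⟨?_, ?_⟩, ?_, ?_⟩⟩
    · show 0 < a / 2; linarith
    · show a / 2 < a; linarith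
    · show 0 < b / 2; linarith
    · show b / 2 < b; linarith
  refine ⟨⟨0, ⟨le_rfl, ha.le⟩, le_rfl, hb.le⟩, ?_, isClosed_box a b, ?_⟩
  · rw [Metric.isBounded_iff_subset_closedBall 0]
    refine ⟨Real.sqrt (a ^ 2 + b ^ 2), ?_⟩
    rintro x ⟨⟨a1, a2⟩, a3, a4⟩
    rw [mem_closedBall_zero_iff, EuclideanSpace.norm_eq, Fin.sum_univ_two]
    refine Real.sqrt_le_sqrt (add_le_add ?_ ?_)
    · rw [Real.norm_eq_abs, sq_abs]
      exact pow_le_pow_left₀ a1 a2 2
    · rw [Real.norm_eq_abs, sq_abs]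
      exact pow_le_pow_left₀ a3 a4 2
  · rw [(convex_box a b).closure_interior_eq_closure_of_nonempty_interior hne,
      (isClosed_box a b).closure_eq]

theorem interior_box_subset {a b : ℝ} {v x : E2}
    (hx : x ∈ interior ((fun y => y + v) '' box a b)) :
    (v 0 < x 0 ∧ x 0 < v 0 + a) ∧ (v 1 < x 1 ∧ x 1 < v 1 + b) := by
  -- moving a little in any direction stays in the box
  have hmove : ∀ w : E2, ∃ ε : ℝ, 0 < ε ∧ x + ε • w ∈ (fun y => y + v) '' box a b := by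
    intro w
    have hc : Tendsto (fun ε : ℝ => x + ε • w) (𝓝[>] 0) (𝓝 x) := by
      have h1 : Continuous fun ε : ℝ => x + ε • w := by fun_prop
      have h2 := h1.tendsto 0
      simp only [zero_smul, add_zero] at h2
      exact h2.mono_left nhdsWithin_le_nhds
    have h3 := hc.eventually (isOpen_interior.mem_nhds hx)
    obtain ⟨ε, h4, h5⟩ := (h3.and self_mem_nhdsWithin).exists
    exact ⟨ε, h5, interior_subset h4⟩
  have hm : ∀ ε : ℝ, ∀ w : E2, x + ε • w ∈ (fun y => y + v) '' box a b →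
      (0 ≤ x 0 + ε * w 0 - v 0 ∧ x 0 + ε * w 0 - v 0 ≤ a) ∧
      (0 ≤ x 1 + ε * w 1 - v 1 ∧ x 1 + ε * w 1 - v 1 ≤ b) := by
    intro ε w h
    rw [mem_translate] at h
    exact h
  obtain ⟨ε1, p1, m1⟩ := hmove (vec 1 1)
  obtain ⟨ε2, p2, m2⟩ := hmove (vec (-1) (-1))
  have q1 := hm _ _ m1
  have q2 := hm _ _ m2
  rw [vec_zero, vec_one] at q1 q2
  obtain ⟨⟨r1, r2⟩, r3, r4⟩ := q1
  obtain ⟨⟨s1, s2⟩, s3, s4⟩ := q2
  refine ⟨⟨?_, ?_⟩, ?_, ?_⟩ <;> linarith

theorem one_dim {a : ℕ} (ha : 0 < a) {w x : ℝ} (hw : 0 < w) (h0 : 0 ≤ x) (h1 : x ≤ a * w) :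
    ∃ i : Fin a, (i : ℕ) * w ≤ x ∧ x ≤ (i : ℕ) * w + w := by
  by_cases h : ⌊x / w⌋₊ < a
  · refine ⟨⟨⌊x / w⌋₊, h⟩, ?_, ?_⟩
    · have := Nat.floor_le (div_nonneg h0 hw.le)
      rwa [le_div_iff₀ hw] at this
    · have := (Nat.lt_floor_add_one (x / w)).le
      rw [div_le_iff₀ hw] at this
      show x ≤ (⌊x / w⌋₊ : ℝ) * w + w
      linarith
  · push Not at h
    have h2 : (a : ℝ) ≤ x / w := by
      have := Nat.floor_le (div_nonneg h0 hw.le)
      have h3 : (a : ℝ) ≤ (⌊x / w⌋₊ : ℝ) := by exact_mod_cast h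
      linarith
    rw [le_div_iff₀ hw] at h2
    refine ⟨⟨a - 1, by omega⟩, ?_, ?_⟩
    · have h3 : ((a - 1 : ℕ) : ℝ) = a - 1 := by
        rw [Nat.cast_sub ha]; simp
      show ((a - 1 : ℕ) : ℝ) * w ≤ x
      rw [h3]
      nlinarith
    · have h3 : ((a - 1 : ℕ) : ℝ) = a - 1 := by
        rw [Nat.cast_sub ha]; simp
      show x ≤ ((a - 1 : ℕ) : ℝ) * w + w
      rw [h3]
      linarith

/-- the grid dissection -/
theorem grid {N a b : ℕ} (φ : Fin N ≃ Fin a × Fin b) (ha : 0 < a) (hb : 0 < b) {w h : ℝ}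
    (hw : 0 < w) (hh : 0 < h)
    (hs : ∃ r : ℝ, 0 < r ∧ ∃ g : E2 ≃ᵢ E2, box w h = sim r g '' box (a * w) (b * h)) :
    IsDissection (box (a * w) (b * h))
      (fun k => (fun y => y + vec (((φ k).1 : ℕ) * w) (((φ k).2 : ℕ) * h)) '' box w h) := by
  refine ⟨?_, ?_, ?_, ?_⟩
  · intro k
    obtain ⟨r, hr, g, hg⟩ := hs
    set v := vec (((φ k).1 : ℕ) * w) (((φ k).2 : ℕ) * h) with hv
    refine ⟨r, hr, g.trans (IsometryEquiv.addRight (r⁻¹ • v)), ?_⟩
    show (fun y => y + v) '' box w h = _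
    rw [hg, Set.image_image]
    refine Set.image_congr fun x _ => ?_
    show r • g x + v = r • (g x + r⁻¹ • v)
    rw [smul_add, smul_smul, mul_inv_cancel₀ hr.ne', one_smul]
  · intro j k
    set v := vec (((φ j).1 : ℕ) * w) (((φ j).2 : ℕ) * h) with hv
    set v' := vec (((φ k).1 : ℕ) * w) (((φ k).2 : ℕ) * h) with hv'
    refine ⟨IsometryEquiv.addRight (v' - v), ?_⟩
    show (fun y => y + v') '' box w h = (fun y => y + (v' - v)) '' ((fun y => y + v) '' box w h)
    rw [Set.image_image]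
    refine Set.image_congr fun x _ => ?_
    abel
  · ext x
    rw [Set.mem_iUnion]
    constructor
    · rintro ⟨⟨a1, a2⟩, a3, a4⟩
      obtain ⟨i, hi1, hi2⟩ := one_dim ha hw a1 a2
      obtain ⟨j, hj1, hj2⟩ := one_dim hb hh a3 a4
      refine ⟨φ.symm (i, j), ?_⟩
      rw [mem_translate, Equiv.apply_symm_apply]
      refine ⟨⟨?_, ?_⟩, ?_, ?_⟩
      · show 0 ≤ x 0 - (i : ℕ) * w; linarith
      · show x 0 - (i : ℕ) * w ≤ w; linarith
      · show 0 ≤ x 1 - (j : ℕ) * h; linarith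
      · show x 1 - (j : ℕ) * h ≤ h; linarith
    · rintro ⟨k, hk⟩
      rw [mem_translate] at hk
      obtain ⟨⟨a1, a2⟩, a3, a4⟩ := hk
      have b1 : 0 ≤ x 0 - ((φ k).1 : ℕ) * w := a1
      have b2 : x 0 - ((φ k).1 : ℕ) * w ≤ w := a2
      have b3 : 0 ≤ x 1 - ((φ k).2 : ℕ) * h := a3
      have b4 : x 1 - ((φ k).2 : ℕ) * h ≤ h := a4
      have c1 : (((φ k).1 : ℕ) : ℝ) + 1 ≤ a := by exact_mod_cast (φ k).1.isLt
      have c2 : (((φ k).2 : ℕ) : ℝ) + 1 ≤ b := by exact_mod_cast (φ k).2.isLt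
      have c3 : (0 : ℝ) ≤ (((φ k).1 : ℕ) : ℝ) := Nat.cast_nonneg _
      have c4 : (0 : ℝ) ≤ (((φ k).2 : ℕ) : ℝ) := Nat.cast_nonneg _
      refine ⟨⟨?_, ?_⟩, ?_, ?_⟩
      · nlinarith
      · nlinarith
      · nlinarith
      · nlinarith
  · intro k k' hne
    show Disjoint (interior _) (interior _)
    rw [Set.disjoint_left]
    intro x hx hx'
    have hx1 := interior_box_subset hx
    have hx2 := interior_box_subset hx'
    rw [vec_zero, vec_one] at hx1 hx2
    have key : ∀ (i i' : ℕ) (w y : ℝ), 0 < w → i * w < y → y < i * w + w → i' * w < y →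
        y < i' * w + w → i = i' := by
      intro i i' w y hw b1 b2 b3 b4
      have d1 : (i : ℝ) < i' + 1 := by nlinarith
      have d2 : (i' : ℝ) < i + 1 := by nlinarith
      have d3 : i < i' + 1 := by exact_mod_cast d1
      have d4 : i' < i + 1 := by exact_mod_cast d2
      omega
    have e1 := key _ _ w (x 0) hw hx1.1.1 hx1.1.2 hx2.1.1 hx2.1.2
    have e2 := key _ _ h (x 1) hh hx1.2.1 hx1.2.2 hx2.2.1 hx2.2.2
    apply hne
    apply φ.injective
    exact Prod.ext (Fin.ext e1) (Fin.ext e2)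

/-- exchange of the coordinates -/
noncomputable def swp : E2 ≃ₗᵢ[ℝ] E2 :=
  LinearIsometryEquiv.piLpCongrLeft 2 ℝ ℝ (Equiv.swap (0 : Fin 2) 1)

theorem swp_zero (x : E2) : swp x 0 = x 1 := by
  simp [swp, LinearIsometryEquiv.piLpCongrLeft_apply]

theorem swp_one (x : E2) : swp x 1 = x 0 := by
  simp [swp, LinearIsometryEquiv.piLpCongrLeft_apply]

theorem box_scale {a b r : ℝ} (hr : 0 < r) :
    box (r * a) (r * b) = sim r (IsometryEquiv.refl E2) '' box a b := by
  ext x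
  constructor
  · rintro ⟨⟨a1, a2⟩, a3, a4⟩
    refine ⟨r⁻¹ • x, ⟨⟨?_, ?_⟩, ?_, ?_⟩, ?_⟩
    · show 0 ≤ r⁻¹ * x 0; positivity
    · show r⁻¹ * x 0 ≤ a
      rw [inv_mul_le_iff₀ hr]; exact a2
    · show 0 ≤ r⁻¹ * x 1; positivity
    · show r⁻¹ * x 1 ≤ b
      rw [inv_mul_le_iff₀ hr]; exact a4
    · show r • (r⁻¹ • x) = x
      rw [smul_smul, mul_inv_cancel₀ hr.ne', one_smul]
  · rintro ⟨y, ⟨⟨a1, a2⟩, a3, a4⟩, rfl⟩
    refine ⟨⟨?_, ?_⟩, ?_, ?_⟩
    · show 0 ≤ r * y 0; positivity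
    · exact mul_le_mul_of_nonneg_left a2 hr.le
    · show 0 ≤ r * y 1; positivity
    · exact mul_le_mul_of_nonneg_left a4 hr.le

theorem box_swap {a b r : ℝ} (hr : 0 < r) :
    box (r * b) (r * a) = sim r swp.toIsometryEquiv '' box a b := by
  have h1 : sim r swp.toIsometryEquiv '' box a b =
      sim r (IsometryEquiv.refl E2) '' (swp '' box a b) := by
    rw [Set.image_image]
    rfl
  have h2 : swp '' box a b = box b a := by
    ext x
    constructor
    · rintro ⟨y, ⟨⟨a1, a2⟩, a3, a4⟩, rfl⟩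
      refine ⟨⟨?_, ?_⟩, ?_, ?_⟩
      · rw [swp_zero]; exact a3
      · rw [swp_zero]; exact a4
      · rw [swp_one]; exact a1
      · rw [swp_one]; exact a2
    · rintro ⟨⟨a1, a2⟩, a3, a4⟩
      refine ⟨swp.symm x, ?_, swp.apply_symm_apply x⟩
      have e0 : swp.symm x 0 = x 1 := by
        rw [← swp_one (swp.symm x), swp.apply_symm_apply]
      have e1 : swp.symm x 1 = x 0 := by
        rw [← swp_zero (swp.symm x), swp.apply_symm_apply]
      refine ⟨⟨?_, ?_⟩, ?_, ?_⟩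
      · rw [e0]; exact a3
      · rw [e0]; exact a4
      · rw [e1]; exact a1
      · rw [e1]; exact a2
  rw [h1, h2, box_scale hr]

theorem grid_parallel {N a b : ℕ} (φ : Fin N ≃ Fin a × Fin b) (w h : ℝ) :
    ParallelOrHalfTurn
      (fun k => (fun y => y + vec (((φ k).1 : ℕ) * w) (((φ k).2 : ℕ) * h)) '' box w h) := by
  intro j k
  left
  refine ⟨vec (((φ k).1 : ℕ) * w) (((φ k).2 : ℕ) * h) -
    vec (((φ j).1 : ℕ) * w) (((φ j).2 : ℕ) * h), ?_⟩
  simp only
  rw [Set.image_image]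
  refine Set.image_congr fun x _ => ?_
  abel

/-- the rectangle `√n × 1` -/
theorem exists_tile {n m : ℕ} (hn : 2 ≤ n) (hm : 2 ≤ m) (hj : ∃ j : ℕ, m = j ^ 2 ∨ m = n * j ^ 2) :
    ∃ T : Set E2, IsTile T ∧
      (∃ P : Fin n → Set E2, IsDissection T P ∧ Arithmetic P) ∧
      (∃ Q : Fin m → Set E2, IsDissection T Q ∧ ParallelOrHalfTurn Q) := by
  have hnR : (0 : ℝ) < n := by exact_mod_cast (show 0 < n by omega)
  have hs : 0 < Real.sqrt n := Real.sqrt_pos.mpr hnR
  have hss : Real.sqrt n * Real.sqrt n = n := Real.mul_self_sqrt hnR.le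
  refine ⟨box (Real.sqrt n) 1, isTile_box hs one_pos, ?_, ?_⟩
  · -- n columns
    set φ : Fin n ≃ Fin n × Fin 1 := (Equiv.prodUnique (Fin n) (Fin 1)).symm with hφ
    set w : ℝ := (Real.sqrt n)⁻¹ with hw
    have hw0 : 0 < w := inv_pos.mpr hs
    have e1 : (n : ℝ) * w = Real.sqrt n := by
      rw [hw, ← div_eq_mul_inv, div_eq_iff hs.ne', hss]
    have e2 : ((1 : ℕ) : ℝ) * 1 = 1 := by norm_num
    have hd := grid φ (show 0 < n by omega) one_pos hw0 (one_pos : (0 : ℝ) < 1) (by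
      refine ⟨w, hw0, swp.toIsometryEquiv, ?_⟩
      rw [e1, e2, ← box_swap hw0, mul_one]
      congr 1
      rw [hw]; field_simp)
    rw [e1, e2] at hd
    refine ⟨_, hd, vec w 0, ?_⟩
    intro j k
    simp only
    rw [Set.image_image]
    refine Set.image_congr fun x _ => ?_
    have hj1 : (((φ j).1 : ℕ) : ℝ) = ((j : ℕ) : ℝ) := rfl
    have hk1 : (((φ k).1 : ℕ) : ℝ) = ((k : ℕ) : ℝ) := rfl
    have hj2 : (((φ j).2 : ℕ) : ℝ) = 0 := by
      have : (φ j).2 = 0 := Subsingleton.elim _ _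
      rw [this]; simp
    have hk2 : (((φ k).2 : ℕ) : ℝ) = 0 := by
      have : (φ k).2 = 0 := Subsingleton.elim _ _
      rw [this]; simp
    rw [hj1, hk1, hj2, hk2]
    ext i
    fin_cases i
    · show x 0 + (k : ℕ) * w = x 0 + (j : ℕ) * w + (((k : ℕ) : ℝ) - ((j : ℕ) : ℝ)) * w
      ring
    · show x 1 + 0 * 1 = x 1 + 0 * 1 + (((k : ℕ) : ℝ) - ((j : ℕ) : ℝ)) * 0
      ring
  · obtain ⟨j, hj | hj⟩ := hj
    · have hj0 : 0 < j := by
        rcases Nat.eq_zero_or_pos j with h | h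
        · subst h; simp at hj; omega
        · exact h
      have hjR : (0 : ℝ) < j := by exact_mod_cast hj0
      have hmj : m = j * j := by rw [hj, sq]
      subst hmj
      have e1 : (j : ℝ) * (Real.sqrt n / j) = Real.sqrt n := by field_simp
      have e2 : (j : ℝ) * (1 / j) = 1 := by field_simp
      have hd := grid (finProdFinEquiv (m := j) (n := j)).symm hj0 hj0
        (w := Real.sqrt n / j) (h := 1 / j) (by positivity) (by positivity) (by
        refine ⟨(j : ℝ)⁻¹, by positivity, IsometryEquiv.refl E2, ?_⟩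
        rw [e1, e2, ← box_scale (by positivity : (0 : ℝ) < (j : ℝ)⁻¹)]
        congr 1
        · field_simp
        · field_simp)
      rw [e1, e2] at hd
      exact ⟨_, hd, grid_parallel _ _ _⟩
    · have hj0 : 0 < j := by
        rcases Nat.eq_zero_or_pos j with h | h
        · subst h; simp at hj; omega
        · exact h
      have hjR : (0 : ℝ) < j := by exact_mod_cast hj0
      have hmj : m = (n * j) * j := by rw [hj]; ring
      subst hmj
      have e1 : ((n * j : ℕ) : ℝ) * ((Real.sqrt n)⁻¹ / j) = Real.sqrt n := by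
        push_cast
        rw [show ((n : ℝ) * j) * ((Real.sqrt n)⁻¹ / j) = (n * (Real.sqrt n)⁻¹) * (j / j) by ring,
          div_self hjR.ne', mul_one, ← div_eq_mul_inv, div_eq_iff hs.ne', hss]
      have e2 : (j : ℝ) * (1 / j) = 1 := by field_simp
      have hd := grid (finProdFinEquiv (m := n * j) (n := j)).symm (by positivity) hj0
        (w := (Real.sqrt n)⁻¹ / j) (h := 1 / j) (by positivity) (by positivity) (by
        refine ⟨(Real.sqrt n)⁻¹ / j, by positivity, swp.toIsometryEquiv, ?_⟩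
        rw [e1, e2, ← box_swap (by positivity : (0 : ℝ) < (Real.sqrt n)⁻¹ / j)]
        congr 1
        · ring
        · field_simp)
      rw [e1, e2] at hd
      exact ⟨_, hd, grid_parallel _ _ _⟩

end RepTile
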