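import Pool.Agent.RepTile.Fourier

/-!
# Tiles which are reptiles in two ways with parallel pieces
-/

namespace RepTile

open MeasureTheory Complex Filter Topology

/-- bounded closed set, closure of its interior, nonempty -/
def IsTile (T : Set E2) : Prop :=
  T.Nonempty ∧ Bornology.IsBounded T ∧ IsClosed T ∧ closure (interior T) = T

/-- dissection of `T` into `n` congruent pieces similar to `T` -/
def IsDissection {n : ℕ} (T : Set E2) (P : Fin n → Set E2) : Prop :=
  (∀ j, ∃ r : ℝ, 0 < r ∧ ∃ g : E2 ≃ᵢ E2, P j = sim r g '' T) ∧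
    (∀ j k, ∃ g : E2 ≃ᵢ E2, P k = g '' P j) ∧ T = ⋃ j, P j ∧
    Pairwise fun j k => Disjoint (interior (P j)) (interior (P k))

/-- any two pieces are translates or point reflections of each other -/
def ParallelOrHalfTurn {n : ℕ} (P : Fin n → Set E2) : Prop :=
  ∀ j k, (∃ v : E2, P k = (fun x => x + v) '' P j) ∨ (∃ v : E2, P k = (fun x => v - x) '' P j)

/-- the pieces are in arithmetic progression -/
def Arithmetic {n : ℕ} (P : Fin n → Set E2) : Prop :=
  ∃ c : E2, ∀ j k : Fin n, P k = (fun x => x + (((k : ℕ) : ℝ) - ((j : ℕ) : ℝ)) • c) '' P j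

theorem IsTile.isCompact {T : Set E2} (hT : IsTile T) : IsCompact T :=
  Metric.isCompact_of_isClosed_isBounded hT.2.2.1 hT.2.1

theorem IsTile.volume_pos {T : Set E2} (hT : IsTile T) : 0 < volume (interior T) := by
  refine isOpen_interior.measure_pos volume ?_
  by_contra h
  rw [Set.not_nonempty_iff_eq_empty] at h
  have := hT.2.2.2
  rw [h, closure_empty] at this
  exact hT.1.ne_empty this.symm

theorem IsTile.volume_ne_top {T : Set E2} (hT : IsTile T) : volume T ≠ ⊤ :=
  hT.isCompact.measure_lt_top.ne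

theorem interior_isometry (g : E2 ≃ᵢ E2) (S : Set E2) : interior (g '' S) = g '' interior S :=
  (g.toHomeomorph.image_interior S).symm

theorem interior_sim {r : ℝ} (hr : 0 < r) (g : E2 ≃ᵢ E2) (S : Set E2) :
    interior (sim r g '' S) = sim r g '' interior S := by
  have h1 : ∀ A : Set E2, sim r g '' A = (Homeomorph.smulOfNeZero r hr.ne' : E2 ≃ₜ E2) '' (g '' A) := by
    intro A
    rw [Set.image_image]
    rfl
  rw [h1, h1, ← interior_isometry]
  exact ((Homeomorph.smulOfNeZero r hr.ne' : E2 ≃ₜ E2).image_interior _).symm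

/-- scaling factor and additivity -/
theorem dissection_facts {n : ℕ} {T : Set E2} (hT : IsTile T) {P : Fin n → Set E2}
    (hP : IsDissection T P) (i₀ : Fin n) {r : ℝ} (hr : 0 < r) {g : E2 ≃ᵢ E2}
    (hg : P i₀ = sim r g '' T) :
    (n : ℝ) * r ^ 2 = 1 ∧ ∀ ξ, FT T ξ = ∑ i, FT (P i) ξ := by
  obtain ⟨h1, h2, h3, h4⟩ := hP
  have hvol : ∀ i, volume (P i) = ENNReal.ofReal (r ^ 2) * volume T := by
    intro i
    obtain ⟨k, hk⟩ := h2 i₀ i
    rw [hk, volume_isometry, hg, volume_sim T hr]
  have hvoli : ∀ i, volume (interior (P i)) = ENNReal.ofReal (r ^ 2) * volume (interior T) := by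
    intro i
    obtain ⟨k, hk⟩ := h2 i₀ i
    rw [hk, interior_isometry, volume_isometry, hg, interior_sim hr, volume_sim _ hr]
  have hTfin := hT.volume_ne_top
  have hifin : volume (interior T) ≠ ⊤ := ne_top_of_le_ne_top hTfin (measure_mono interior_subset)
  have hipos := hT.volume_pos
  have hTpos : 0 < volume T := lt_of_lt_of_le hipos (measure_mono interior_subset)
  -- upper bound
  have hle : (n : ENNReal) * ENNReal.ofReal (r ^ 2) * volume (interior T) ≤ volume (interior T) := by
    have e1 : ∑ i : Fin n, volume (interior (P i)) ≤ volume (interior T) := by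
      have e0 : ∑ i : Fin n, volume (interior (P i)) = volume (⋃ i, interior (P i)) := by
        rw [measure_iUnion (fun i j hij => h4 hij) fun i => isOpen_interior.measurableSet,
          tsum_fintype]
      rw [e0]
      refine measure_mono (Set.iUnion_subset fun i => ?_)
      refine interior_mono ?_
      rw [h3]
      exact Set.subset_iUnion P i
    simp only [hvoli, Finset.sum_const, Finset.card_univ, Fintype.card_fin, nsmul_eq_mul] at e1
    rwa [← mul_assoc] at e1
  have hge : volume T ≤ (n : ENNReal) * ENNReal.ofReal (r ^ 2) * volume T := by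
    have e1 : volume T ≤ ∑ i : Fin n, volume (P i) := by
      conv_lhs => rw [h3]
      exact measure_iUnion_fintype_le _ _
    simp only [hvol, Finset.sum_const, Finset.card_univ, Fintype.card_fin, nsmul_eq_mul] at e1
    rwa [← mul_assoc] at e1
  have hc : (n : ENNReal) * ENNReal.ofReal (r ^ 2) = ENNReal.ofReal (n * r ^ 2) := by
    rw [ENNReal.ofReal_mul (Nat.cast_nonneg n), ENNReal.ofReal_natCast]
  have hn1 : (n : ℝ) * r ^ 2 ≤ 1 := by
    rw [hc] at hle
    have : ENNReal.ofReal (n * r ^ 2) ≤ 1 := by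
      by_contra hcon
      push Not at hcon
      have h5 : volume (interior T) < ENNReal.ofReal (n * r ^ 2) * volume (interior T) := by
        conv_lhs => rw [← one_mul (volume (interior T))]
        exact ENNReal.mul_lt_mul_left hipos.ne' hifin hcon
      exact absurd hle (not_le.mpr h5)
    rw [← ENNReal.ofReal_one] at this
    exact (ENNReal.ofReal_le_ofReal_iff zero_le_one).mp this
  have hn2 : 1 ≤ (n : ℝ) * r ^ 2 := by
    rw [hc] at hge
    have : 1 ≤ ENNReal.ofReal (n * r ^ 2) := by
      by_contra hcon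
      push Not at hcon
      have h5 : ENNReal.ofReal (n * r ^ 2) * volume T < volume T := by
        conv_rhs => rw [← one_mul (volume T)]
        exact ENNReal.mul_lt_mul_left hTpos.ne' hTfin hcon
      exact absurd hge (not_le.mpr h5)
    rwa [ENNReal.one_le_ofReal] at this
  have hn : (n : ℝ) * r ^ 2 = 1 := le_antisymm hn1 hn2
  refine ⟨hn, fun ξ => ?_⟩
  refine FT_sum hTfin hT.2.2.1.measurableSet (fun i => ?_) h3 ?_ ξ
  · obtain ⟨s, hs, k, hk⟩ := h1 i
    rw [hk]
    have e : sim s k '' T = (Homeomorph.smulOfNeZero s hs.ne' : E2 ≃ₜ E2) '' (k '' T) := by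
      rw [Set.image_image]
      rfl
    rw [e]
    exact ((Homeomorph.smulOfNeZero s hs.ne' : E2 ≃ₜ E2).isClosedMap _
      (k.toHomeomorph.isClosedMap _ hT.2.2.1)).measurableSet
  · simp only [hvol, Finset.sum_const, Finset.card_univ, Fintype.card_fin, nsmul_eq_mul]
    rw [← mul_assoc, hc, hn, ENNReal.ofReal_one, one_mul]

/-- the zero set of the Fourier transform of a tile with a dissection in arithmetic progression -/
theorem zero_of_arithmetic {n : ℕ} (hn : 2 ≤ n) {T : Set E2} (hT : IsTile T)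
    {P : Fin n → Set E2} (hP : IsDissection T P) (hA : Arithmetic P) :
    ∃ c : E2, c ≠ 0 ∧ ∃ L : E2 ≃ₗᵢ[ℝ] E2, ∃ r : ℝ, 0 < r ∧ (n : ℝ) * r ^ 2 = 1 ∧
      (∀ ξ : E2, inner ℝ c ξ = 2 * Real.pi / n → FT T ξ = 0) ∧
      ∀ ξ : E2, FT T ξ = 0 → ∃ k : ℕ, ∃ s : ℤ,
        (n : ℝ) * inner ℝ c ((fun x => L.symm (r • x))^[k] ξ) = 2 * Real.pi * s ∧
        inner ℝ c ((fun x => L.symm (r • x))^[k] ξ) ≠ 0 := by
  have hn0 : 0 < n := by omega
  set i₀ : Fin n := ⟨0, hn0⟩ with hi₀
  obtain ⟨r, hr, g, hg⟩ := hP.1 i₀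
  obtain ⟨hnr, hsum⟩ := dissection_facts hT hP i₀ hr hg
  obtain ⟨c, hc⟩ := hA
  set L := g.toRealAffineIsometryEquiv.linearIsometryEquiv with hL
  have hnR : (0 : ℝ) < n := by exact_mod_cast hn0
  -- the mask
  have hmask : ∀ ξ, FT T ξ = (∑ j ∈ Finset.range n, (cexp (I * (inner ℝ c ξ : ℝ))) ^ j) *
      ((r : ℂ) ^ 2 * cexp (I * (inner ℝ (g 0) (r • ξ) : ℝ)) * FT T (L.symm (r • ξ))) := by
    intro ξ
    rw [hsum ξ, ← FT_sim T hr g ξ, ← hg, Finset.sum_mul, ← Fin.sum_univ_eq_sum_range
      (fun j => (cexp (I * (inner ℝ c ξ : ℝ))) ^ j * FT (P i₀) ξ)]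
    refine Finset.sum_congr rfl fun j _ => ?_
    rw [hc i₀ j, FT_add, ← Complex.exp_nat_mul]
    congr 2
    have : ((i₀ : ℕ) : ℝ) = 0 := by simp [hi₀]
    rw [this, sub_zero, inner_smul_left]
    simp
    ring
  refine ⟨c, ?_, L, r, hr, hnr, ?_, ?_⟩
  · rintro rfl
    have h1 := hc i₀ ⟨1, by omega⟩
    simp only [smul_zero, add_zero, Set.image_id'] at h1
    have h2 := hP.2.2.2 (i := i₀) (j := ⟨1, by omega⟩) (by
      intro h
      have := congrArg Fin.val h
      simp [hi₀] at this)
    have h2' : Disjoint (interior (P i₀)) (interior (P ⟨1, by omega⟩)) := h2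
    rw [h1, disjoint_self, hg, interior_sim hr] at h2'
    have h3 : (interior T).Nonempty := by
      by_contra h
      rw [Set.not_nonempty_iff_eq_empty] at h
      have := hT.2.2.2
      rw [h, closure_empty] at this
      exact hT.1.ne_empty this.symm
    exact (h3.image (sim r g)).ne_empty h2'
  · intro ξ hξ
    rw [hmask ξ, hξ]
    set z := cexp (I * ((2 * Real.pi / n : ℝ) : ℂ)) with hz
    have hz1 : z ≠ 1 := by
      intro h
      rw [hz, Complex.exp_eq_one_iff] at h
      obtain ⟨m, hm⟩ := h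
      have h2 : ((2 * Real.pi / n : ℝ) : ℂ) = (m * (2 * Real.pi) : ℝ) := by
        have : I * ((2 * Real.pi / n : ℝ) : ℂ) = I * ((m * (2 * Real.pi) : ℝ) : ℂ) := by
          rw [hm]; push_cast; ring
        exact mul_left_cancel₀ I_ne_zero this
      have h3 : 2 * Real.pi / n = m * (2 * Real.pi) := by exact_mod_cast h2
      have h4 : (1 : ℝ) = m * n := by
        have hpi := Real.pi_pos
        field_simp at h3
        linarith
      have h5 : (1 : ℤ) = m * n := by exact_mod_cast h4
      have h6 : (n : ℤ) ∣ 1 := ⟨m, by rw [h5]; ring⟩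
      have := Int.le_of_dvd one_pos h6
      omega
    have hzn : z ^ n = 1 := by
      rw [hz, ← Complex.exp_nat_mul, Complex.exp_eq_one_iff]
      refine ⟨1, ?_⟩
      push_cast
      have : (n : ℂ) ≠ 0 := by exact_mod_cast hnR.ne'
      field_simp
    rw [geom_sum_eq hz1, hzn]
    simp
  · intro ξ hξ
    by_contra hcon
    push Not at hcon
    set M : E2 → E2 := fun x => L.symm (r • x) with hM
    have hstep : ∀ k, FT T (M^[k] ξ) = 0 := by
      intro k
      induction k with
      | zero => exact hξ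
      | succ k ih =>
        rw [Function.iterate_succ_apply']
        rw [hmask (M^[k] ξ)] at ih
        rcases mul_eq_zero.mp ih with h | h
        · exfalso
          -- the mask vanishes
          set t := inner ℝ c (M^[k] ξ) with ht
          have h2 : (cexp (I * (t : ℝ))) ^ n = 1 := by
            have := mul_geom_sum (cexp (I * (t : ℝ))) n
            rw [h, mul_zero] at this
            exact (sub_eq_zero.mp this.symm)
          rw [← Complex.exp_nat_mul, Complex.exp_eq_one_iff] at h2
          obtain ⟨s, hs⟩ := h2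
          have h3 : (n : ℝ) * t = 2 * Real.pi * s := by
            have : I * ((n * t : ℝ) : ℂ) = I * ((2 * Real.pi * s : ℝ) : ℂ) := by
              push_cast
              linear_combination hs
            have := mul_left_cancel₀ I_ne_zero this
            exact_mod_cast this
          have h4 := hcon k s h3
          have h5 : t = 0 := h4
          rw [h5] at h
          simp at h
          omega
        · rcases mul_eq_zero.mp h with h' | h'
          · exfalso
            rcases mul_eq_zero.mp h' with h'' | h''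
            · exact absurd (pow_eq_zero_iff (two_ne_zero) |>.mp h'') (by exact_mod_cast hr.ne')
            · exact Complex.exp_ne_zero _ h''
          · exact h'
    -- convergence to 0
    have hr1 : r < 1 := by
      by_contra hge
      push Not at hge
      have : (2 : ℝ) ≤ n := by exact_mod_cast hn
      nlinarith
    have hnorm : ∀ k, ‖M^[k] ξ‖ = r ^ k * ‖ξ‖ := by
      intro k
      induction k with
      | zero => simp
      | succ k ih =>
        rw [Function.iterate_succ_apply']
        show ‖L.symm (r • (M^[k] ξ))‖ = _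
        rw [LinearIsometryEquiv.norm_map, norm_smul, ih, Real.norm_eq_abs, abs_of_pos hr, pow_succ]
        ring
    have hlim : Tendsto (fun k => M^[k] ξ) atTop (𝓝 0) := by
      rw [tendsto_zero_iff_norm_tendsto_zero]
      simp only [hnorm]
      have := (tendsto_pow_atTop_nhds_zero_of_lt_one hr.le hr1).mul_const ‖ξ‖
      rwa [zero_mul] at this
    have h6 := ((continuous_FT hT.volume_ne_top).tendsto 0).comp hlim
    have h7 : Tendsto (fun _ : ℕ => (0 : ℂ)) atTop (𝓝 (FT T 0)) := by
      refine h6.congr fun k => hstep k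
    have h8 : FT T 0 = 0 := (tendsto_nhds_unique h7 tendsto_const_nhds)
    rw [FT_zero] at h8
    have h9 : volume.real T = 0 := by exact_mod_cast h8
    rw [Measure.real, ENNReal.toReal_eq_zero_iff] at h9
    rcases h9 with h9 | h9
    · have := lt_of_lt_of_le hT.volume_pos (measure_mono interior_subset : _ ≤ volume T)
      rw [h9] at this
      exact lt_irrefl _ this
    · exact hT.volume_ne_top h9

/-- invariance of the zero set under the second dissection -/
theorem zero_of_parallel {m : ℕ} (hm : 0 < m) {T : Set E2} (hT : IsTile T)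
    {Q : Fin m → Set E2} (hQ : IsDissection T Q) (hpar : ParallelOrHalfTurn Q) :
    ∃ N : E2 ≃ₗᵢ[ℝ] E2, ∃ σ : ℝ, 0 < σ ∧ (m : ℝ) * σ ^ 2 = 1 ∧
      ∀ η : E2, FT T η = 0 → FT T (σ⁻¹ • N η) = 0 := by
  set i₀ : Fin m := ⟨0, hm⟩ with hi₀
  obtain ⟨σ, hσ, g, hg⟩ := hQ.1 i₀
  obtain ⟨hmσ, hsum⟩ := dissection_facts hT hQ i₀ hσ hg
  set N := g.toRealAffineIsometryEquiv.linearIsometryEquiv with hN
  refine ⟨N, σ, hσ, hmσ, ?_⟩
  intro η hη
  have h0 : FT (Q i₀) (σ⁻¹ • N η) = 0 := by
    rw [hg, FT_sim T hσ g]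
    have : N.symm (σ • σ⁻¹ • N η) = η := by
      rw [smul_smul, mul_inv_cancel₀ hσ.ne', one_smul, N.symm_apply_apply]
    rw [this, hη, mul_zero]
  rw [hsum]
  refine Finset.sum_eq_zero fun i _ => ?_
  rcases hpar i₀ i with ⟨v, hv⟩ | ⟨v, hv⟩
  · rw [hv, FT_add, h0, mul_zero]
  · have : (fun x : E2 => v - x) '' Q i₀ = (fun x => x + v) '' ((fun x => -x) '' Q i₀) := by
      rw [Set.image_image]
      refine Set.image_congr fun x _ => ?_
      abel
    rw [hv, this, FT_add, FT_neg, h0, map_zero, mul_zero]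

/-- main arithmetic consequence -/
theorem square_condition {n m : ℕ} (hn : 2 ≤ n) (hm : 2 ≤ m) {T : Set E2} (hT : IsTile T)
    {P : Fin n → Set E2} (hP : IsDissection T P) (hA : Arithmetic P)
    {Q : Fin m → Set E2} (hQ : IsDissection T Q) (hpar : ParallelOrHalfTurn Q) :
    ∃ j : ℕ, m = j ^ 2 ∨ m = n * j ^ 2 := by
  obtain ⟨c, hc, L, r, hr, hnr, hz1, hz2⟩ := zero_of_arithmetic hn hT hP hA
  obtain ⟨N, σ, hσ, hmσ, hz3⟩ := zero_of_parallel (by omega) hT hQ hpar
  have hnR : (0 : ℝ) < n := by exact_mod_cast (show 0 < n by omega)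
  have hpi := Real.pi_pos
  have hcn : 0 < ‖c‖ := norm_pos_iff.mpr hc
  set u : ℕ → E2 := fun k => (fun x => r • L x)^[k] c with hu
  have hadj : ∀ k (x : E2), inner ℝ c ((fun x => L.symm (r • x))^[k] x) = inner ℝ (u k) x := by
    intro k
    induction k with
    | zero => intro x; rfl
    | succ k ih =>
      intro x
      rw [Function.iterate_succ_apply, ih]
      have e1 : u (k + 1) = r • L (u k) := by
        show (fun x => r • L x)^[k + 1] c = _
        rw [Function.iterate_succ_apply']
      rw [e1, inner_smul_left]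
      show inner ℝ (u k) (L.symm (r • x)) = _
      rw [← L.inner_map_map, L.apply_symm_apply, inner_smul_right]
      simp
  have hun : ∀ k, ‖u k‖ = r ^ k * ‖c‖ := by
    intro k
    induction k with
    | zero => simp [hu]
    | succ k ih =>
      have e1 : u (k + 1) = r • L (u k) := by
        show (fun x => r • L x)^[k + 1] c = _
        rw [Function.iterate_succ_apply']
      rw [e1, norm_smul, LinearIsometryEquiv.norm_map, ih, Real.norm_eq_abs, abs_of_pos hr,
        pow_succ]
      ring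
  set w : ℕ → E2 := fun k => σ⁻¹ • N.symm (u k) with hw
  have hwadj : ∀ k (x : E2), inner ℝ (u k) (σ⁻¹ • N x) = inner ℝ (w k) x := by
    intro k x
    rw [hw]
    simp only
    rw [inner_smul_right, inner_smul_left, ← N.inner_map_map (N.symm (u k)) x, N.apply_symm_apply]
    simp
  have hwn : ∀ k, ‖w k‖ = σ⁻¹ * (r ^ k * ‖c‖) := by
    intro k
    rw [hw]
    simp only
    rw [norm_smul, LinearIsometryEquiv.norm_map, hun, Real.norm_eq_abs,
      abs_of_pos (inv_pos.mpr hσ)]
  set e : E2 := WithLp.toLp 2 ![-(c 1), c 0] with he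
  have he0 : e 0 = -(c 1) := rfl
  have he1 : e 1 = c 0 := rfl
  have hin : ∀ x y : E2, inner ℝ x y = x 0 * y 0 + x 1 * y 1 := by
    intro x y
    rw [PiLp.inner_apply]
    simp [Fin.sum_univ_two, mul_comm]
  have hce : inner ℝ c e = 0 := by rw [hin, he0, he1]; ring
  have hcc : inner ℝ c c = ‖c‖ ^ 2 := real_inner_self_eq_norm_sq c
  set η : ℝ → E2 := fun t => (2 * Real.pi / (n * ‖c‖ ^ 2)) • c + t • e with hη
  have hcη : ∀ t, inner ℝ c (η t) = 2 * Real.pi / n := by
    intro t
    rw [hη]
    simp only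
    rw [inner_add_right, inner_smul_right, inner_smul_right, hce, hcc]
    field_simp
    ring
  have hex : ∀ t : ℝ, ∃ q : ℕ × ℤ, (n : ℝ) * inner ℝ (w q.1) (η t) = 2 * Real.pi * q.2 := by
    intro t
    have h1 := hz3 _ (hz1 (η t) (hcη t))
    obtain ⟨k, s, hs, _⟩ := hz2 _ h1
    refine ⟨(k, s), ?_⟩
    rw [hadj, hwadj] at hs
    exact hs
  choose q hq using hex
  have hninj : ¬ Function.Injective q := not_injective_uncountable_countable q
  rw [Function.Injective] at hninj
  push Not at hninj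
  obtain ⟨t, t', htt, hne⟩ := hninj
  obtain ⟨⟨k, s⟩, hqt⟩ : ∃ p : ℕ × ℤ, q t = p := ⟨q t, rfl⟩
  have hq1 := hq t
  have hq2 := hq t'
  rw [← htt, hqt] at hq2
  rw [hqt] at hq1
  simp only at hq1 hq2
  have hwe : inner ℝ (w k) e = 0 := by
    have h1 : (n : ℝ) * inner ℝ (w k) (η t) - n * inner ℝ (w k) (η t') = 0 := by
      rw [hq1, hq2, sub_self]
    have h2 : inner ℝ (w k) (η t) - inner ℝ (w k) (η t') = (t - t') * inner ℝ (w k) e := by
      rw [hη]
      simp only
      rw [inner_add_right, inner_add_right, inner_smul_right, inner_smul_right, inner_smul_right]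
      ring
    have h3 : (n : ℝ) * ((t - t') * inner ℝ (w k) e) = 0 := by
      rw [← h2]; linarith
    rcases mul_eq_zero.mp h3 with h | h
    · exact absurd h hnR.ne'
    · rcases mul_eq_zero.mp h with h' | h'
      · exact absurd (sub_eq_zero.mp h') hne
      · exact h'
  have hwc : inner ℝ (w k) c = s * ‖c‖ ^ 2 := by
    have h1 : inner ℝ (w k) (η t) = (2 * Real.pi / (n * ‖c‖ ^ 2)) * inner ℝ (w k) c := by
      rw [hη]
      simp only
      rw [inner_add_right, inner_smul_right, inner_smul_right, hwe]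
      ring
    rw [h1] at hq1
    have h2 : (n : ℝ) * (2 * Real.pi / (n * ‖c‖ ^ 2) * inner ℝ (w k) c) =
        2 * Real.pi * (inner ℝ (w k) c / ‖c‖ ^ 2) := by
      field_simp
    rw [h2] at hq1
    have h3 : inner ℝ (w k) c / ‖c‖ ^ 2 = s :=
      mul_left_cancel₀ (by positivity : (2 * Real.pi : ℝ) ≠ 0) hq1
    rw [div_eq_iff (by positivity)] at h3
    exact h3
  have hlag : ‖w k‖ ^ 2 * ‖c‖ ^ 2 = (inner ℝ (w k) c) ^ 2 + (inner ℝ (w k) e) ^ 2 := by
    rw [← real_inner_self_eq_norm_sq, ← real_inner_self_eq_norm_sq, hin, hin, hin, hin, he0, he1]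
    ring
  rw [hwe, hwc, hwn] at hlag
  have hkey : (m : ℝ) = n ^ k * (s : ℝ) ^ 2 := by
    have h1 : (σ⁻¹) ^ 2 * (r ^ 2) ^ k = (s : ℝ) ^ 2 := by
      have h2 : (‖c‖ ^ 2) ^ 2 * ((σ⁻¹) ^ 2 * (r ^ 2) ^ k) = (‖c‖ ^ 2) ^ 2 * (s : ℝ) ^ 2 := by
        have : ((r ^ 2) ^ k : ℝ) = (r ^ k) ^ 2 := by rw [← pow_mul, ← pow_mul, mul_comm]
        rw [this]
        linear_combination hlag
      exact mul_left_cancel₀ (by positivity) h2
    have h3 : r ^ 2 = (n : ℝ)⁻¹ := by
      rw [eq_comm, inv_eq_iff_eq_inv, eq_comm, inv_eq_iff_eq_inv] 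
      field_simp
      linarith
    have h4 : (σ⁻¹) ^ 2 = (m : ℝ) := by
      rw [inv_pow]
      rw [inv_eq_iff_eq_inv]
      field_simp
      linarith
    rw [h3, h4, inv_pow] at h1
    field_simp at h1
    linarith
  have hkeyN : m = n ^ k * s.natAbs ^ 2 := by
    have h1 : ((s.natAbs : ℝ)) ^ 2 = (s : ℝ) ^ 2 := by
      rw [Nat.cast_natAbs, ← sq_abs (s : ℝ)]
      push_cast
      rfl
    rw [← h1] at hkey
    exact_mod_cast hkey
  rcases Nat.even_or_odd' k with ⟨a, ha | ha⟩
  · refine ⟨n ^ a * s.natAbs, Or.inl ?_⟩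
    rw [hkeyN, ha]
    ring
  · refine ⟨n ^ a * s.natAbs, Or.inr ?_⟩
    rw [hkeyN, ha]
    ring

end RepTile
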